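import Pool.Agent.H150Z.Cher.A1

set_option autoImplicit false

namespace Pool.Agent.Results.MP_385815_al.ANotCellular

open Pool.Agent.H150Z.Cher

/-- There are a finite Coxeter group `W` (a finite real reflection group acting on the
complexification `V` of its reflection representation) and a parameter `c` such that the restricted
rational Cherednik algebra of `W` at `c` is not cellular. -/
theorem result : ∃ (V : Type) (_ : AddCommGroup V) (_ : Module ℂ V) (_ : FiniteDimensional ℂ V)
    (W : Subgroup (V ≃ₗ[ℂ] V)) (c : W → ℂ),
    IsRealReflGroup W ∧ IsParam W c ∧ ¬ IsCellular (RRCA W c) :=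
  ⟨ℂ, inferInstance, inferInstance, inferInstance, A1.W, fun _ => 0, A1.isReal,
    fun _ _ => rfl, A1.not_cell⟩

end Pool.Agent.Results.MP_385815_al.ANotCellular
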